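import Mathlib

/-!
# Player 2 in the Tribonacci Zeckendorf game

For every `n ≥ 10` Player 2 has a winning strategy in the Tribonacci game on `n`.

The argument is local and uses strategy stealing. Write `[a, b, ...]` for the position consisting
of the listed terms and of terms equal to `1`. If the mover wins `[]`, then the mover loses
`[2]`, hence wins `[4]`, hence loses `[2, 4]`, hence wins `[4, 4]` and `[7]`; by the latter the
mover loses `[2, 7]` and (since `[4, 4]` is won by the mover, but not by moving to `[7]`) also
`[2, 4, 4]`. But one can move from `[2, 4, 4]` to `[2, 7]`.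
-/

set_option autoImplicit false

open Multiset

namespace Pool.Agent.Results.MP_7f8e47_co.PlayerTwoWins

/-- The sequence `S_1 = 1, S_2 = 2, S_3 = 4, S_{i+1} = S_i + S_{i-1} + S_{i-2}` (`S_0 = 1` is a
dummy value which is not used). -/
def S : ℕ → ℕ
  | 0 => 1
  | 1 => 1
  | 2 => 2
  | 3 => 4
  | (i + 4) => S (i + 3) + S (i + 2) + S (i + 1)

/-- The moves of the Tribonacci game; a position is a finite multiset of terms. -/
inductive Move : Multiset ℕ → Multiset ℕ → Prop
  | rule1 (i : ℕ) (hi : 3 ≤ i) (t : Multiset ℕ) :
      Move ({S (i - 2), S (i - 1), S i} + t) ({S (i + 1)} + t)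
  | rule2 (t : Multiset ℕ) : Move ({S 1, S 1, S 2} + t) ({S 3} + t)
  | rule3 (t : Multiset ℕ) : Move ({S 1, S 1} + t) ({S 2} + t)
  | rule4 (t : Multiset ℕ) : Move ({S 2, S 2} + t) ({S 3} + t)
  | rule5 (t : Multiset ℕ) : Move ({S 3, S 3} + t) ({S 4, S 1} + t)
  | rule6 (i : ℕ) (hi : 4 ≤ i) (t : Multiset ℕ) :
      Move ({S i, S i} + t) ({S (i + 1), S (i - 3)} + t)

/-- `p 0, …, p k` are the successive positions of a play of the Tribonacci game on `n`. Player 1
makes the moves from `p i` to `p (i + 1)` with `i` even, Player 2 those with `i` odd. -/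
def IsPlay (n k : ℕ) (p : ℕ → Multiset ℕ) : Prop :=
  p 0 = replicate n (S 1) ∧ ∀ i < k, Move (p i) (p (i + 1))

/-- Player 2 has a winning strategy in the Tribonacci game on `n`: there is a rule `σ` which
gives a legal move in each position in which there is one, such that every play which has ended
and in which Player 2 followed `σ` had its last move made by Player 2 (the total number `k` of
moves is positive and even). -/
def SecondWins (n : ℕ) : Prop :=
  ∃ σ : Multiset ℕ → Multiset ℕ,
    (∀ q, (∃ r, Move q r) → Move q (σ q)) ∧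
    ∀ (k : ℕ) (p : ℕ → Multiset ℕ), IsPlay n k p → (∀ i < k, Odd i → p (i + 1) = σ (p i)) →
      (∀ r, ¬ Move (p k) r) → 0 < k ∧ Even k

/-! ### The sequence -/

lemma S_rec (i : ℕ) (hi : 3 ≤ i) : S (i + 1) = S i + S (i - 1) + S (i - 2) := by
  obtain ⟨j, rfl⟩ : ∃ j, i = j + 3 := ⟨i - 3, by omega⟩
  show S (j + 4) = _
  rw [S]
  simp

lemma S_pos (i : ℕ) : 0 < S i := by
  induction i using Nat.strong_induction_on with
  | _ i ih =>
    match i with
    | 0 => simp [S]
    | 1 => simp [S]
    | 2 => simp [S]
    | 3 => simp [S]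
    | (i + 4) => rw [S]; have := ih (i + 3) (by omega); omega

lemma S_lt (i : ℕ) (hi : 1 ≤ i) : S i < S (i + 1) := by
  match i, hi with
  | 1, _ => simp [S]
  | 2, _ => simp [S]
  | (i + 3), _ =>
    have h := S_rec (i + 3) (by omega)
    have h1 := S_pos (i + 2)
    have h2 : S (i + 3 - 1) = S (i + 2) := by simp
    omega

lemma S_mono {i j : ℕ} (hi : 1 ≤ i) (hij : i ≤ j) : S i ≤ S j := by
  induction j, hij using Nat.le_induction with
  | base => exact le_rfl
  | succ j hj ih => exact ih.trans (S_lt j (by omega)).le

lemma S_strictMono {i j : ℕ} (hi : 1 ≤ i) (hij : i < j) : S i < S j :=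
  lt_of_lt_of_le (S_lt i hi) (S_mono (by omega) hij)

@[simp] lemma S1 : S 1 = 1 := by simp [S]
@[simp] lemma S2 : S 2 = 2 := by simp [S]
@[simp] lemma S3 : S 3 = 4 := by simp [S]
@[simp] lemma S4 : S 4 = 7 := by simp [S]
lemma S5 : S 5 = 13 := by simp [S]

/-! ### Termination -/

/-- the weight of a term: `1 + index` -/
noncomputable def wt (v : ℕ) : ℕ := by
  classical
  exact if h : ∃ i, 1 ≤ i ∧ S i = v then Nat.find h + 1 else 0

lemma wt_S (i : ℕ) (hi : 1 ≤ i) : wt (S i) = i + 1 := by
  classical
  have h : ∃ j, 1 ≤ j ∧ S j = S i := ⟨i, hi, rfl⟩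
  unfold wt
  rw [dif_pos h]
  have h1 := Nat.find_spec h
  have h2 : Nat.find h = i := by
    rcases lt_trichotomy (Nat.find h) i with h3 | h3 | h3
    · have := S_strictMono h1.1 h3; omega
    · exact h3
    · have := S_strictMono hi h3; omega
  omega

noncomputable def weight (p : Multiset ℕ) : ℕ := (p.map wt).sum

lemma weight_lt {p q : Multiset ℕ} (h : Move p q) : weight q < weight p := by
  cases h with
  | rule1 i hi t =>
    simp only [weight, Multiset.map_add, Multiset.sum_add, insert_eq_cons, map_cons, sum_cons,
      map_singleton, sum_singleton]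
    rw [wt_S _ (by omega), wt_S _ (by omega), wt_S _ (by omega), wt_S _ (by omega)]
    omega
  | rule2 t =>
    simp only [weight, Multiset.map_add, Multiset.sum_add, insert_eq_cons, map_cons, sum_cons,
      map_singleton, sum_singleton]
    rw [wt_S _ (by omega), wt_S _ (by omega), wt_S _ (by omega)]
    omega
  | rule3 t =>
    simp only [weight, Multiset.map_add, Multiset.sum_add, insert_eq_cons, map_cons, sum_cons,
      map_singleton, sum_singleton]
    rw [wt_S _ (by omega), wt_S _ (by omega)]
    omega
  | rule4 t =>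
    simp only [weight, Multiset.map_add, Multiset.sum_add, insert_eq_cons, map_cons, sum_cons,
      map_singleton, sum_singleton]
    rw [wt_S _ (by omega), wt_S _ (by omega)]
    omega
  | rule5 t =>
    simp only [weight, Multiset.map_add, Multiset.sum_add, insert_eq_cons, map_cons, sum_cons,
      map_singleton, sum_singleton]
    rw [wt_S _ (by omega), wt_S _ (by omega), wt_S _ (by omega)]
    omega
  | rule6 i hi t =>
    simp only [weight, Multiset.map_add, Multiset.sum_add, insert_eq_cons, map_cons, sum_cons,
      map_singleton, sum_singleton]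
    rw [wt_S _ (by omega), wt_S _ (by omega), wt_S _ (by omega)]
    omega

/-- Every play terminates. -/
theorem no_infinite_play (p : ℕ → Multiset ℕ) : ¬ ∀ i, Move (p i) (p (i + 1)) := by
  intro h
  have h1 : ∀ i, weight (p i) + i ≤ weight (p 0) := by
    intro i
    induction i with
    | zero => simp
    | succ i ih => have := weight_lt (h i); omega
  have := h1 (weight (p 0) + 1)
  omega

/-! ### Winning and losing positions -/

/-- `Loses p`: the player who has to move in `p` loses. -/
inductive Loses : Multiset ℕ → Prop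
  | intro (p : Multiset ℕ) (f : ∀ q, Move p q → Multiset ℕ)
      (h1 : ∀ q (h : Move p q), Move q (f q h)) (h2 : ∀ q (h : Move p q), Loses (f q h)) : Loses p

lemma loses_iff (p : Multiset ℕ) :
    Loses p ↔ ∀ q, Move p q → ∃ r, Move q r ∧ Loses r := by
  constructor
  · rintro ⟨_, f, h1, h2⟩ q hq
    exact ⟨_, h1 q hq, h2 q hq⟩
  · intro h
    choose f h1 h2 using h
    exact Loses.intro p f h1 h2

/-- A losing position has no move to a losing position. -/
lemma not_loses_of_move {p q : Multiset ℕ} (h : Move p q) (hp : Loses p) : ¬ Loses q := by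
  induction hp generalizing q with
  | intro p f h1 h2 ih =>
    intro hq
    obtain ⟨_, g, g1, g2⟩ := hq
    exact ih q h (g1 _ (h1 q h)) (g2 _ (h1 q h))

/-- A position which is not losing has a move to a losing position. -/
lemma exists_loses (p : Multiset ℕ) (hp : ¬ Loses p) : ∃ q, Move p q ∧ Loses q := by
  have key : ∀ (N : ℕ) (p : Multiset ℕ), weight p < N → ¬ Loses p → ∃ q, Move p q ∧ Loses q := by
    intro N
    induction N with
    | zero => intro p h; omega
    | succ N ih =>
      intro p hN hp
      rw [loses_iff] at hp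
      push Not at hp
      obtain ⟨q, hq, hq'⟩ := hp
      refine ⟨q, hq, ?_⟩
      by_contra hc
      obtain ⟨r, hr, hr'⟩ := ih q (by have := weight_lt hq; omega) hc
      exact hq' r hr hr'
  exact key _ p (Nat.lt_succ_self _) hp

/-! ### The options of four positions -/

/-- the position consisting of the terms in `s` and of `m` further terms equal to `1` -/
def pos (s : Multiset ℕ) (m : ℕ) : Multiset ℕ := s + replicate m 1

lemma mem_pos {s : Multiset ℕ} {m v : ℕ} (h : v ∈ pos s m) : v ∈ s ∨ v = 1 := by
  unfold pos at h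
  rw [mem_add] at h
  rcases h with h | h
  · exact Or.inl h
  · exact Or.inr (eq_of_mem_replicate h)

lemma pos_add_two (s : Multiset ℕ) (m : ℕ) : pos s (m + 2) = {S 1, S 1} + pos s m := by
  unfold pos
  rw [show replicate (m + 2) 1 = ({S 1, S 1} : Multiset ℕ) + replicate m 1 by
    rw [replicate_succ, replicate_succ]; simp]
  rw [← add_assoc, add_comm s, add_assoc]

lemma S_ge_seven {i : ℕ} (hi : 4 ≤ i) : 7 ≤ S i := by
  have := S_mono (i := 4) (j := i) (by norm_num) hi
  simpa using this

lemma S_ge_thirteen {i : ℕ} (hi : 5 ≤ i) : 13 ≤ S i := by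
  have := S_mono (i := 5) (j := i) (by norm_num) hi
  simpa [S5] using this

/-- General list of the options of a position all whose terms are `1`, `4` or `7`. -/
lemma options {s : Multiset ℕ} {m : ℕ} {p q : Multiset ℕ} (hs : ∀ v ∈ s, v = 4 ∨ v = 7)
    (h7 : count 7 s ≤ 1) (hp : p = pos s (m + 2)) (h : Move p q) :
    q = pos (2 ::ₘ s) m ∨ ∃ t, s = 4 ::ₘ 4 ::ₘ t ∧ q = pos (7 ::ₘ t) (m + 3) := by
  have hmem : ∀ v ∈ p, v = 1 ∨ v = 4 ∨ v = 7 := by
    intro v hv
    rw [hp] at hv
    rcases mem_pos hv with h | h
    · rcases hs v h with h | h <;> simp [h]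
    · exact Or.inl h
  cases h with
  | rule1 i hi t =>
    exfalso
    have h1 := hmem (S i) (by simp)
    have h2 := hmem (S (i - 1)) (by simp)
    have h3 := hmem (S (i - 2)) (by simp)
    rcases Nat.lt_or_ge i 5 with h5 | h5
    · interval_cases i
      · simp at h2
      · simp at h3
    · have := S_ge_thirteen h5
      omega
  | rule2 t =>
    exfalso
    have h1 := hmem (S 2) (by simp)
    simp at h1
  | rule3 t =>
    left
    rw [pos_add_two] at hp
    have ht : t = pos s m := add_left_cancel hp
    rw [ht]
    unfold pos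
    simp
  | rule4 t =>
    exfalso
    have h1 := hmem (S 2) (by simp)
    simp at h1
  | rule5 t =>
    right
    have hc : count 4 (({S 3, S 3} : Multiset ℕ) + t) = count 4 (pos s (m + 2)) := by rw [hp]
    have hc2 : 2 ≤ count 4 s := by
      unfold pos at hc
      rw [count_add, count_add, count_replicate] at hc
      simp at hc
      omega
    obtain ⟨u, hu⟩ : ∃ u, s = 4 ::ₘ 4 ::ₘ u := by
      have hle : replicate 2 4 ≤ s := le_count_iff_replicate_le.mp hc2
      obtain ⟨u, hu⟩ := Multiset.le_iff_exists_add.mp hle
      refine ⟨u, ?_⟩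
      rw [hu, replicate_succ, replicate_succ, replicate_zero, cons_add, cons_add, zero_add]
    refine ⟨u, hu, ?_⟩
    have ht : t = pos u (m + 2) := by
      have h1 : (({S 3, S 3} : Multiset ℕ) + t) = {S 3, S 3} + pos u (m + 2) := by
        rw [hp, hu]
        unfold pos
        simp
      exact add_left_cancel h1
    rw [ht]
    unfold pos
    rw [show replicate (m + 3) 1 = (1 ::ₘ replicate (m + 2) 1 : Multiset ℕ) by
      rw [← replicate_succ]]
    simp only [insert_eq_cons, cons_add, singleton_add, add_cons, S1, S4]
    rw [cons_swap]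
  | rule6 i hi t =>
    exfalso
    have h1 := hmem (S i) (by simp)
    have h2 := S_ge_seven hi
    have h3 : S i = 7 := by omega
    have hc : count 7 (({S i, S i} : Multiset ℕ) + t) = count 7 (pos s (m + 2)) := by rw [hp]
    unfold pos at hc
    rw [count_add, count_add, count_replicate, h3] at hc
    simp at hc
    omega

/-! ### Strategy stealing -/

lemma move_rule3 (s : Multiset ℕ) (m : ℕ) : Move (pos s (m + 2)) (pos (2 ::ₘ s) m) := by
  have h := Move.rule3 (pos s m)
  rw [← pos_add_two] at h
  convert h using 1
  unfold pos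
  simp

lemma move_rule2 (s : Multiset ℕ) (m : ℕ) : Move (pos (2 ::ₘ s) (m + 2)) (pos (4 ::ₘ s) m) := by
  have h := Move.rule2 (pos s m)
  convert h using 1
  · rw [pos_add_two]
    unfold pos
    simp only [S1, S2, insert_eq_cons, cons_add, singleton_add]
  · unfold pos
    simp

lemma move_rule1 (s : Multiset ℕ) (m : ℕ) :
    Move (pos (2 ::ₘ 4 ::ₘ s) (m + 1)) (pos (7 ::ₘ s) m) := by
  have h := Move.rule1 3 le_rfl (pos s m)
  convert h using 1
  · unfold pos
    rw [replicate_succ]
    simp only [insert_eq_cons, cons_add, singleton_add, add_cons, Nat.reduceSub, S1, S2, S3]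
  · unfold pos
    simp

lemma move_rule5 (s : Multiset ℕ) (m : ℕ) :
    Move (pos (4 ::ₘ 4 ::ₘ s) m) (pos (7 ::ₘ s) (m + 1)) := by
  have h := Move.rule5 (pos s m)
  convert h using 1
  · unfold pos
    simp only [insert_eq_cons, cons_add, singleton_add, S3]
  · unfold pos
    rw [replicate_succ]
    simp only [insert_eq_cons, cons_add, singleton_add, add_cons, S1, S4]
    rw [cons_swap]

/-- The mover loses from `n` ones, if `n ≥ 10`. -/
theorem loses_start (m : ℕ) : Loses (pos 0 (m + 10)) := by
  by_contra hR
  -- the mover loses from `[2]`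
  obtain ⟨q, hq, hA⟩ := exists_loses _ hR
  have hA : Loses (pos {2} (m + 8)) := by
    rcases options (s := 0) (m := m + 8) (by simp) (by simp) rfl hq with h | ⟨t, ht, -⟩
    · rw [h] at hA; exact hA
    · simp at ht
  -- the mover wins from `[4]`
  have hB : ¬ Loses (pos {4} (m + 6)) := not_loses_of_move (move_rule2 0 (m + 6)) hA
  -- the mover loses from `[2, 4]`
  have hC : Loses (pos {2, 4} (m + 4)) := by
    obtain ⟨q, hq, hC⟩ := exists_loses _ hB
    rcases options (s := {4}) (m := m + 4) (by simp) (by simp) rfl hq with h | ⟨t, ht, -⟩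
    · rw [h] at hC; exact hC
    · exfalso
      have := congrArg card ht
      simp at this
  -- the mover wins from `[7]` and from `[4, 4]`
  have hD : ¬ Loses (pos {7} (m + 3)) := not_loses_of_move (move_rule1 0 (m + 3)) hC
  have hE : ¬ Loses (pos {4, 4} (m + 2)) := not_loses_of_move (move_rule2 {4} (m + 2)) hC
  -- the mover loses from `[2, 7]`
  have hF : Loses (pos {2, 7} (m + 1)) := by
    obtain ⟨q, hq, hF⟩ := exists_loses _ hD
    rcases options (s := {7}) (m := m + 1) (by simp) (by simp) rfl hq with h | ⟨t, ht, -⟩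
    · rw [h] at hF; exact hF
    · exfalso
      have := congrArg card ht
      simp at this
  -- the mover loses from `[2, 4, 4]`
  have hG : Loses (pos {2, 4, 4} m) := by
    obtain ⟨q, hq, hG⟩ := exists_loses _ hE
    rcases options (s := {4, 4}) (m := m) (by simp) (by simp) rfl hq with h | ⟨t, ht, h⟩
    · rw [h] at hG; exact hG
    · exfalso
      have ht0 : t = 0 := by
        have := congrArg card ht
        simp at this
        exact this
      rw [h, ht0] at hG
      exact hD hG
  have hmove : Move (pos {2, 4, 4} m) (pos {2, 7} (m + 1)) := by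
    have h := move_rule5 {2} m
    convert h using 2
    · decide
    · decide
  exact not_loses_of_move hmove hG hF

/-! ### The strategy of Player 2 -/

theorem playerTwoWins_of_loses {n : ℕ} (hn : 2 ≤ n) (h : Loses (replicate n (S 1))) :
    SecondWins n := by
  classical
  let σ : Multiset ℕ → Multiset ℕ := fun q =>
    if h : ∃ r, Move q r ∧ Loses r then h.choose
    else if h' : ∃ r, Move q r then h'.choose else q
  refine ⟨σ, ?_, ?_⟩
  · intro q hq
    show Move q (σ q)
    by_cases h1 : ∃ r, Move q r ∧ Loses r
    · simp only [σ, dif_pos h1]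
      exact h1.choose_spec.1
    · simp only [σ, dif_neg h1, dif_pos hq]
      exact hq.choose_spec
  · intro k p hp hσ hend
    have hinv : ∀ j, 2 * j ≤ k → Loses (p (2 * j)) := by
      intro j
      induction j with
      | zero => intro _; simpa [hp.1] using h
      | succ j ih =>
        intro hj
        have h1 := ih (by omega)
        have h2 := hp.2 (2 * j) (by omega)
        have h3 := hσ (2 * j + 1) (by omega) ⟨j, by ring⟩
        have h4 : ∃ r, Move (p (2 * j + 1)) r ∧ Loses r := (loses_iff _).1 h1 _ h2
        have h5 : Loses (σ (p (2 * j + 1))) := by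
          simp only [σ, dif_pos h4]
          exact h4.choose_spec.2
        rw [show 2 * (j + 1) = 2 * j + 1 + 1 by ring, h3]
        exact h5
    constructor
    · rcases Nat.eq_zero_or_pos k with hk | hk
      · exfalso
        subst hk
        obtain ⟨m, rfl⟩ : ∃ m, n = m + 2 := ⟨n - 2, by omega⟩
        have hm := move_rule3 0 m
        apply hend (pos (2 ::ₘ 0) m)
        rw [hp.1]
        convert hm using 1
        simp [pos]
      · exact hk
    · by_contra hodd
      rw [Nat.not_even_iff_odd] at hodd
      obtain ⟨j, rfl⟩ := hodd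
      have h1 := hinv j (by omega)
      have h2 := hp.2 (2 * j) (by omega)
      obtain ⟨r, hr, -⟩ := (loses_iff _).1 h1 _ h2
      exact hend r hr

/-- **Player 2 wins the Tribonacci game on every `n ≥ 10`.** Every play terminates, and for every
`n ≥ 10` Player 2 has a winning strategy. -/
theorem result : (∀ p : ℕ → Multiset ℕ, ¬ ∀ i, Move (p i) (p (i + 1))) ∧
    ∀ n, 10 ≤ n → SecondWins n := by
  refine ⟨no_infinite_play, fun n hn => playerTwoWins_of_loses (by omega) ?_⟩
  obtain ⟨m, rfl⟩ : ∃ m, n = m + 10 := ⟨n - 10, by omega⟩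
  simpa [pos] using loses_start m

end Pool.Agent.Results.MP_7f8e47_co.PlayerTwoWins
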